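import Pool.Agent.H24.Hur2

set_option autoImplicit false

namespace Pool.Agent.Results.MP_9c2350_lc.PolyAlg
open Pool.Agent.H11.PT Pool.Agent.H24.Par Pool.Agent.H24.Hur

theorem result : ∃ f : ℕ × List (List (List ℚ)) → List (List Bool), PolyTime bits bits f ∧
    ∀ (n : ℕ) (L : List (List (List ℚ))), 1 ≤ n → (∀ i u v, 0 ≤ fam n L i u v) →
      (∃ α, Pos (fam n L) α) →
      ∃ β : Fin L.length → ℕ, f (n, L) = List.ofFn (fun i => (β i).bits) ∧ Pos (fam n L) β :=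
  ⟨alg, pt_alg.polyTime, fun n L hn h ⟨α, hα⟩ => alg_ok n L hn h α hα⟩

end Pool.Agent.Results.MP_9c2350_lc.PolyAlg
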